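import Pool.Agent.W238.Leh.General
import Pool.Agent.TH377.Dyn.Main

/-!
# The canonical height of a polynomial
-/

set_option autoImplicit false

namespace Pool.Agent.TH377.Dyn

open NumberField Module Filter Topology Height

section

variable {K : Type} [Field K] {d : ℕ}

/-- the forms attached to a polynomial -/
noncomputable def forms (a : Fin (d + 1) → K) (b : K) : Fin (1 + 1) → MvPolynomial (Fin (1 + 1)) K :=
  ![∑ i : Fin (d + 1), MvPolynomial.C (a i) * (MvPolynomial.X 0 ^ (i : ℕ) *
      MvPolynomial.X 1 ^ (d - i)), MvPolynomial.C b * MvPolynomial.X 1 ^ d]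

lemma forms_hom (a : Fin (d + 1) → K) (b : K) (i : Fin (1 + 1)) :
    (forms a b i).IsHomogeneous d := by
  fin_cases i
  · change (∑ i : Fin (d + 1), MvPolynomial.C (a i) * (MvPolynomial.X 0 ^ (i : ℕ) *
      MvPolynomial.X 1 ^ (d - i)) : MvPolynomial (Fin (1 + 1)) K).IsHomogeneous d
    refine MvPolynomial.IsHomogeneous.sum _ _ _ fun i _ => ?_
    have h1 : ((MvPolynomial.X 0 ^ (i : ℕ) * MvPolynomial.X 1 ^ (d - i) :
        MvPolynomial (Fin (1 + 1)) K)).IsHomogeneous ((i : ℕ) + (d - i)) := by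
      have g1 := (MvPolynomial.isHomogeneous_X K (0 : Fin (1 + 1))).pow (i : ℕ)
      have g2 := (MvPolynomial.isHomogeneous_X K (1 : Fin (1 + 1))).pow (d - (i : ℕ))
      simpa using g1.mul g2
    have h2 : (i : ℕ) + (d - i) = d := by omega
    rw [h2] at h1
    have h3 := (MvPolynomial.isHomogeneous_C (Fin (1 + 1)) (a i)).mul h1
    rwa [zero_add] at h3
  · change (MvPolynomial.C b * MvPolynomial.X 1 ^ d : MvPolynomial (Fin (1 + 1)) K).IsHomogeneous d
    have h1 := (MvPolynomial.isHomogeneous_X K (1 : Fin (1 + 1))).pow d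
    have h3 := (MvPolynomial.isHomogeneous_C (Fin (1 + 1)) b).mul h1
    simpa using h3

lemma act_forms {L : Type} [Field L] [Algebra K L] (a : Fin (d + 1) → K) (b : K) (x : L) :
    Pool.Agent.W238.Leh.act (forms a b) ![x, 1] =
      ![∑ i : Fin (d + 1), algebraMap K L (a i) * x ^ (i : ℕ), algebraMap K L b] := by
  funext i
  fin_cases i
  · simp [Pool.Agent.W238.Leh.act, forms]
  · simp [Pool.Agent.W238.Leh.act, forms]

/-- the iterates -/
lemma iter_forms {L : Type} [Field L] [NumberField K] [NumberField L] [Algebra K L]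
    (a : Fin (d + 1) → K) (b : K) (hb : b ≠ 0) (x : L) (n : ℕ) :
    ∃ t : L, t ≠ 0 ∧ (Pool.Agent.W238.Leh.act (forms a b))^[n] ![x, 1] =
      t • ![(fun y : L => (algebraMap K L b)⁻¹ *
        ∑ i : Fin (d + 1), algebraMap K L (a i) * y ^ (i : ℕ))^[n] x, 1] := by
  have hbL : algebraMap K L b ≠ 0 := by
    rwa [Ne, map_eq_zero]
  induction n with
  | zero => exact ⟨1, one_ne_zero, by rw [one_smul]; rfl⟩
  | succ n ih =>
    obtain ⟨t, ht, h⟩ := ih
    refine ⟨t ^ d * algebraMap K L b, mul_ne_zero (pow_ne_zero _ ht) hbL, ?_⟩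
    rw [Function.iterate_succ_apply', h, Pool.Agent.W238.Leh.act_smul (forms_hom a b), act_forms,
      Function.iterate_succ_apply', mul_smul]
    congr 1
    funext i
    fin_cases i
    · simp [hbL]
    · simp

/-- **The canonical height exists.** -/
theorem canon_exists [NumberField K] (hd : 2 ≤ d) (a : Fin (d + 1) → K) (b : K) (hb : b ≠ 0)
    (ha : a (Fin.last d) ≠ 0) (L : Type) [Field L] [NumberField L] [Algebra K L] (x : L) :
    ∃ h : ℝ, Tendsto (fun n : ℕ => logHeight₁ ((fun y : L => (algebraMap K L b)⁻¹ *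
      ∑ i : Fin (d + 1), algebraMap K L (a i) * y ^ (i : ℕ))^[n] x) /
        ((finrank ℚ L : ℝ) * (d : ℝ) ^ n)) atTop (𝓝 h) := by
  have hmor : ∀ z : Fin (1 + 1) → AlgebraicClosure K,
      (∀ i, MvPolynomial.aeval z (forms a b i) = 0) → z = 0 := by
    intro z hz
    have h1 := hz 1
    have h0 := hz 0
    have e1 : z 1 = 0 := by
      have h2 : algebraMap K (AlgebraicClosure K) b * z 1 ^ d = 0 := by
        simpa [forms] using h1
      rcases mul_eq_zero.1 h2 with h3 | h3
      · exact absurd ((map_eq_zero _).1 h3) hb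
      · exact pow_eq_zero_iff (by omega) |>.1 h3
    have e0 : z 0 = 0 := by
      have h2 : ∑ i : Fin (d + 1), algebraMap K (AlgebraicClosure K) (a i) *
          (z 0 ^ (i : ℕ) * z 1 ^ (d - i)) = 0 := by
        simpa [forms] using h0
      rw [Finset.sum_eq_single (Fin.last d)] at h2
      · rw [Fin.val_last, Nat.sub_self, pow_zero, mul_one] at h2
        rcases mul_eq_zero.1 h2 with h3 | h3
        · exact absurd ((map_eq_zero _).1 h3) ha
        · exact pow_eq_zero_iff (by omega) |>.1 h3
      · intro i _ hi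
        have h3 : d - (i : ℕ) ≠ 0 := by
          have h4 : (i : ℕ) ≠ d := fun h => hi (Fin.ext (by rw [h, Fin.val_last]))
          have := i.2
          omega
        rw [e1, zero_pow h3, mul_zero, mul_zero]
      · intro h
        exact absurd (Finset.mem_univ _) h
    funext i
    fin_cases i
    · exact e0
    · exact e1
  obtain ⟨C, -, hC⟩ := Pool.Agent.W238.Leh.general K 1 d hd (forms a b) (forms_hom a b) hmor 1
    one_pos
  obtain ⟨h1, -⟩ := hC L
  have hx : (![x, 1] : Fin (1 + 1) → L) ≠ 0 := fun h => one_ne_zero (congrFun h 1)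
  refine ⟨_, (h1 ![x, 1] hx).congr fun n => ?_⟩
  obtain ⟨t, ht, h⟩ := iter_forms a b hb x n
  rw [h, logHeight_smul_eq_logHeight _ ht, logHeight₁_eq_logHeight]

end

end Pool.Agent.TH377.Dyn
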