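import Pool.Agent.TH377.Dyn.NF

/-!
# Lower bounds for heights
-/

set_option autoImplicit false

namespace Pool.Agent.TH377.Dyn

open Polynomial NumberField IsDedekindDomain Height

open Real (posLog)

universe u v

section heights

variable {L : Type v} [Field L] [NumberField L]

/-- the finite places in a finite set contribute at most the height -/
lemma sum_le_logHeight (y : L) (s : Finset (FinitePlace L)) :
    ∑ w ∈ s, posLog (w y) ≤ logHeight₁ y := by
  classical
  rw [NumberField.logHeight₁_eq]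
  have h1 : 0 ≤ ∑ v : InfinitePlace L, v.mult * posLog (v y) :=
    Finset.sum_nonneg fun v _ => mul_nonneg (Nat.cast_nonneg _) Real.posLog_nonneg
  have h2 : ∑ w ∈ s, posLog (w y) ≤ ∑ᶠ v : FinitePlace L, posLog (v y) := by
    have hfin : (Function.support fun w : FinitePlace L => posLog (w y)).Finite := by
      by_cases hy : y = 0
      · convert Set.finite_empty
        ext w
        simp [hy]
      · refine (FinitePlace.hasFiniteMulSupport hy).subset fun w hw => ?_
        intro h
        apply hw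
        change posLog (w y) = 0
        have h' : w y = 1 := h
        rw [h', Real.posLog_one]
    rw [finsum_eq_sum_of_support_subset (s := hfin.toFinset ∪ s) _ (by
      intro w hw
      rw [Finset.mem_coe, Finset.mem_union]
      exact Or.inl (hfin.mem_toFinset.2 hw))]
    exact Finset.sum_le_sum_of_subset_of_nonneg Finset.subset_union_right
      fun _ _ _ => Real.posLog_nonneg
  linarith

/-- the contribution of a place -/
lemma le_posLog (w : HeightOneSpectrum (𝓞 L)) (y : L) (m : ℕ)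
    (h : WithZero.exp (m : ℤ) ≤ w.valuation L y) :
    m * Real.log (Ideal.absNorm w.asIdeal) ≤ posLog (FinitePlace.mk w y) := by
  have hN : 1 < (Ideal.absNorm w.asIdeal : NNReal) := HeightOneSpectrum.one_lt_absNorm_nnreal w
  have hN0 : (Ideal.absNorm w.asIdeal : NNReal) ≠ 0 := HeightOneSpectrum.absNorm_ne_zero w
  have h1 : (Ideal.absNorm w.asIdeal : ℝ) ^ m ≤ FinitePlace.mk w y := by
    rw [FinitePlace.mk_apply, FinitePlace.norm_embedding, HeightOneSpectrum.adicAbv_def]
    have h2 := (WithZeroMulInt.toNNReal_strictMono hN).monotone h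
    have h3 : WithZeroMulInt.toNNReal hN0 (WithZero.exp (m : ℤ)) =
        (Ideal.absNorm w.asIdeal : NNReal) ^ m := by
      rw [WithZeroMulInt.toNNReal_neg_apply _ WithZero.exp_ne_zero]
      exact zpow_natCast _ _
    rw [h3] at h2
    exact_mod_cast h2
  have h0 : (0 : ℝ) < (Ideal.absNorm w.asIdeal : ℝ) ^ m := by
    have : (0 : ℝ) < Ideal.absNorm w.asIdeal := by
      have := zero_lt_one.trans hN
      exact_mod_cast this
    positivity
  rw [← Real.log_pow]
  exact (Real.log_le_log h0 h1).trans (le_max_right _ _)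

end heights

variable {K : Type u} {L : Type v} [Field K] [NumberField K] [Field L] [NumberField L]
  [Algebra K L]

/-- the valuation of an element of `v` -/
lemma val_le_exp (v : HeightOneSpectrum (𝓞 K)) (q : v.asIdeal.primesOver (𝓞 L)) (b : 𝓞 K)
    (hb : b ∈ v.asIdeal) : (ovr v q).valuation L (algebraMap (𝓞 K) L b) ≤
      WithZero.exp (-(q.1.ramificationIdx (𝓞 K) : ℤ)) := by
  have hmax := v.isMaximal
  have h1 := HeightOneSpectrum.valuation_liesOver (K := K) L v (ovr v q) (b : K)
  have h2 : v.valuation K (b : K) ≤ WithZero.exp (-1) := by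
    rw [HeightOneSpectrum.valuation_of_algebraMap]
    have := (v.intValuation_le_pow_iff_mem b 1).2 (by rwa [pow_one])
    exact_mod_cast this
  have h3 : v.asIdeal.ramificationIdx' (ovr v q).asIdeal = q.1.ramificationIdx (𝓞 K) :=
    Ideal.ramificationIdx'_eq_ramificationIdx v.asIdeal q.1 v.ne_bot
  have h4 : algebraMap K L (b : K) = algebraMap (𝓞 K) L b :=
    (IsScalarTower.algebraMap_apply (𝓞 K) K L b).symm
  rw [h4, h3] at h1
  rw [← h1]
  calc v.valuation K (b : K) ^ q.1.ramificationIdx (𝓞 K) ≤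
        WithZero.exp (-1) ^ q.1.ramificationIdx (𝓞 K) := pow_le_pow_left₀ zero_le h2 _
    _ = _ := by
      rw [← WithZero.exp_nsmul]
      congr 1
      simp

/-- **The lower bound for the height of the iterates.** -/
theorem height_iter (v : HeightOneSpectrum (𝓞 K)) (b : 𝓞 K) (hb : b ∈ v.asIdeal) (hb0 : b ≠ 0)
    (F : (𝓞 K)[X]) (hd : 0 < F.natDegree) (hlc : F.leadingCoeff ∉ v.asIdeal)
    (hirr : Irreducible (F.map (Ideal.Quotient.mk v.asIdeal))) (x : L) (n : ℕ) :
    ((∑ q : v.asIdeal.primesOver (𝓞 L) with ¬ F.natDegree ∣ q.1.inertiaDeg (𝓞 K),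
      q.1.ramificationIdx (𝓞 K) * q.1.inertiaDeg (𝓞 K) : ℕ) : ℝ) *
      ((F.natDegree : ℝ) ^ n * Real.log (Ideal.absNorm v.asIdeal)) ≤
    logHeight₁ ((fun y => (algebraMap (𝓞 K) L b)⁻¹ *
      (F.map (algebraMap (𝓞 K) L)).eval y)^[n + 1] x) := by
  classical
  have hmax := v.isMaximal
  have hinj : Function.Injective (algebraMap (𝓞 K) L) :=
    FaithfulSMul.algebraMap_injective (𝓞 K) L
  set xn := (fun y => (algebraMap (𝓞 K) L b)⁻¹ *
      (F.map (algebraMap (𝓞 K) L)).eval y)^[n + 1] x with hxn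
  have hN : (1 : ℝ) < Ideal.absNorm v.asIdeal := by
    exact_mod_cast HeightOneSpectrum.one_lt_absNorm v
  have hlog : 0 < Real.log (Ideal.absNorm v.asIdeal) := Real.log_pos hN
  set S := Finset.univ.filter fun q : v.asIdeal.primesOver (𝓞 L) =>
    ¬ F.natDegree ∣ q.1.inertiaDeg (𝓞 K) with hS
  have hplace : ∀ q ∈ S, ((q.1.ramificationIdx (𝓞 K) * q.1.inertiaDeg (𝓞 K) : ℕ) : ℝ) *
      ((F.natDegree : ℝ) ^ n * Real.log (Ideal.absNorm v.asIdeal)) ≤
      posLog (FinitePlace.mk (ovr v q) xn) := by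
    intro q hq
    have hq' : ¬ F.natDegree ∣ q.1.inertiaDeg (𝓞 K) := (Finset.mem_filter.1 hq).2
    have h1 : 1 < (ovr v q).valuation L x ∨
        1 ≤ (ovr v q).valuation L ((F.map (algebraMap (𝓞 K) L)).eval x) := by
      by_contra h
      rw [not_or, not_lt, not_le] at h
      exact hq' (dvd_inertia v (ovr v q) F hlc hirr x h.1 h.2)
    have h2 := escape ((ovr v q).valuation L) (F.map (algebraMap (𝓞 K) L)) (coeff_le v q F)
      (by
        rw [leadingCoeff_map_of_injective hinj]
        exact val_eq_one v q _ hlc) (algebraMap (𝓞 K) L b) (val_lt_one v q b hb)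
      (by rwa [Ne, map_eq_zero_iff _ hinj]) x h1 n
    rw [natDegree_map_eq_of_injective hinj] at h2
    have hVb : (ovr v q).valuation L (algebraMap (𝓞 K) L b) ≠ 0 := by
      rw [Valuation.ne_zero_iff, Ne, map_eq_zero_iff _ hinj]
      exact hb0
    have h3 : WithZero.exp ((q.1.ramificationIdx (𝓞 K) * F.natDegree ^ n : ℕ) : ℤ) ≤
        (ovr v q).valuation L xn := by
      refine le_trans ?_ h2
      have h4 : WithZero.exp (q.1.ramificationIdx (𝓞 K) : ℤ) ≤
          ((ovr v q).valuation L (algebraMap (𝓞 K) L b))⁻¹ := by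
        rw [← inv_inv (WithZero.exp (q.1.ramificationIdx (𝓞 K) : ℤ)), ← WithZero.exp_neg]
        exact inv_anti₀ (zero_lt_iff.2 hVb) (val_le_exp v q b hb)
      calc WithZero.exp ((q.1.ramificationIdx (𝓞 K) * F.natDegree ^ n : ℕ) : ℤ) =
            WithZero.exp (q.1.ramificationIdx (𝓞 K) : ℤ) ^ (F.natDegree ^ n) := by
            rw [← WithZero.exp_nsmul]
            congr 1
            push_cast
            rw [nsmul_eq_mul]
            push_cast
            ring
        _ ≤ ((ovr v q).valuation L (algebraMap (𝓞 K) L b))⁻¹ ^ (F.natDegree ^ n) :=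
            pow_le_pow_left₀ zero_le h4 _
        _ ≤ ((ovr v q).valuation L (algebraMap (𝓞 K) L b))⁻¹ ^ gexp F.natDegree (n + 1) := by
            refine pow_le_pow_right₀ ?_ (pow_le_gexp _ _)
            refine le_trans ?_ h4
            rw [← WithZero.exp_zero, WithZero.exp_le_exp]
            positivity
    have h5 := le_posLog (ovr v q) xn _ h3
    refine le_trans (le_of_eq ?_) h5
    have h6 : Ideal.absNorm (ovr v q).asIdeal =
        Ideal.absNorm v.asIdeal ^ q.1.inertiaDeg (𝓞 K) :=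
      (Ideal.absNorm_pow_inertiaDeg v.asIdeal q.1).symm
    rw [h6]
    push_cast
    rw [Real.log_pow]
    ring
  have hinj2 : Set.InjOn (fun q : v.asIdeal.primesOver (𝓞 L) => FinitePlace.mk (ovr v q)) S := by
    intro q _ q' _ h
    have h1 := FinitePlace.mk_eq_iff.1 h
    exact Subtype.ext (congrArg HeightOneSpectrum.asIdeal h1)
  calc _ = ∑ q ∈ S, ((q.1.ramificationIdx (𝓞 K) * q.1.inertiaDeg (𝓞 K) : ℕ) : ℝ) *
      ((F.natDegree : ℝ) ^ n * Real.log (Ideal.absNorm v.asIdeal)) := by
        rw [Nat.cast_sum, Finset.sum_mul]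
    _ ≤ ∑ q ∈ S, posLog (FinitePlace.mk (ovr v q) xn) := Finset.sum_le_sum hplace
    _ = ∑ w ∈ S.image (fun q => FinitePlace.mk (ovr v q)), posLog (w xn) := by
        rw [Finset.sum_image hinj2]
    _ ≤ _ := sum_le_logHeight _ _

/-- the sum over the primes with residue degree not divisible by `d` -/
theorem one_le_sum (v : HeightOneSpectrum (𝓞 K)) (d : ℕ) (hL : ¬ d ∣ Module.finrank K L) :
    1 ≤ ∑ q : v.asIdeal.primesOver (𝓞 L) with ¬ d ∣ q.1.inertiaDeg (𝓞 K),
      q.1.ramificationIdx (𝓞 K) * q.1.inertiaDeg (𝓞 K) := by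
  classical
  by_contra h
  have h0 : ∑ q : v.asIdeal.primesOver (𝓞 L) with ¬ d ∣ q.1.inertiaDeg (𝓞 K),
      q.1.ramificationIdx (𝓞 K) * q.1.inertiaDeg (𝓞 K) = 0 := by omega
  apply hL
  rw [← sum_ef L v, ← Finset.sum_filter_add_sum_filter_not Finset.univ
    (fun q : v.asIdeal.primesOver (𝓞 L) => d ∣ q.1.inertiaDeg (𝓞 K)), h0, add_zero]
  exact Finset.dvd_sum fun q hq => Dvd.dvd.mul_left (Finset.mem_filter.1 hq).2 _

/-- Galois extensions -/
theorem sum_galois [IsGalois K L] (v : HeightOneSpectrum (𝓞 K)) (d : ℕ)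
    (hL : ¬ d ∣ Module.finrank K L) :
    ∑ q : v.asIdeal.primesOver (𝓞 L) with ¬ d ∣ q.1.inertiaDeg (𝓞 K),
      q.1.ramificationIdx (𝓞 K) * q.1.inertiaDeg (𝓞 K) = Module.finrank K L := by
  classical
  have hmax := v.isMaximal
  have hall : ∀ q : v.asIdeal.primesOver (𝓞 L), ¬ d ∣ q.1.inertiaDeg (𝓞 K) := by
    intro q hq
    apply hL
    rw [← sum_ef L v]
    refine Finset.dvd_sum fun q' _ => Dvd.dvd.mul_left ?_ _
    have h1 := q.2.1
    have h2 := q.2.2
    have h3 := q'.2.1
    have h4 := q'.2.2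
    rwa [Ideal.inertiaDeg_eq_of_isGaloisGroup v.asIdeal q'.1 q.1 Gal(L/K)]
  rw [← sum_ef L v]
  congr 1
  exact Finset.filter_true_of_mem fun q _ => hall q

end Pool.Agent.TH377.Dyn
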