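import Pool.Agent.TH377.Dyn.Canon
import Pool.Agent.TH377.Dyn.Ht

/-!
# Lehmer's inequality for almost all polynomials
-/

set_option autoImplicit false
set_option maxHeartbeats 400000

namespace Pool.Agent.TH377.Dyn

open Polynomial NumberField IsDedekindDomain Module Filter Topology Height Pool.Agent.TH377.Sup

/-- a prime that does not divide `M!` has norm greater than `M` -/
lemma lt_norm {K : Type*} [Field K] [NumberField K] (v : HeightOneSpectrum (𝓞 K)) (M : ℕ)
    (h : ((M.factorial : ℕ) : 𝓞 K) ∉ v.asIdeal) : M < Ideal.absNorm v.asIdeal := by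
  by_contra h1
  rw [not_lt] at h1
  apply h
  have h0 : 0 < Ideal.absNorm v.asIdeal := by
    have := HeightOneSpectrum.one_lt_absNorm v
    omega
  obtain ⟨k, hk⟩ := Nat.dvd_factorial h0 h1
  rw [hk]
  push_cast
  exact Ideal.mul_mem_right _ _ (Ideal.absNorm_mem _)

/-- the polynomial -/
noncomputable def phi {K : Type} [Field K] {d : ℕ} (c : Fin (d + 2) → 𝓞 K) : K[X] :=
  Polynomial.C ((c 0 : K)⁻¹) * ∑ i : Fin (d + 1), Polynomial.C (c i.succ : K) * X ^ (i : ℕ)

lemma phi_eq {K : Type} [Field K] {d : ℕ} (c : Fin (d + 2) → 𝓞 K)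
    {L : Type} [Field L] [Algebra K L] :
    (fun y : L => aeval y (phi c)) = fun y : L => (algebraMap K L (c 0 : K))⁻¹ *
        ∑ i : Fin (d + 1), algebraMap K L (c i.succ : K) * y ^ (i : ℕ) := by
  funext y
  simp [phi]

lemma phi_eq2 {K : Type} [Field K] [NumberField K] {d : ℕ} (c : Fin (d + 2) → 𝓞 K)
    {L : Type} [Field L] [NumberField L] [Algebra K L] :
    (fun y : L => aeval y (phi c)) = fun y : L =>
      (algebraMap (𝓞 K) L (c 0))⁻¹ * ((num c).map (algebraMap (𝓞 K) L)).eval y := by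
  funext y
  exact map_eq c y

/-- the canonical height is at least the bound for the iterates -/
lemma limit_bound {r : ℝ} {u : ℕ → ℝ} (hr : Tendsto u atTop (𝓝 r)) (B : ℝ)
    (h : ∀ n, B ≤ u (n + 1)) : B ≤ r :=
  ge_of_tendsto' ((tendsto_add_atTop_iff_nat 1).2 hr) h

lemma arith (S C KL KQ d N H : ℝ) (n : ℕ) (hS : 0 ≤ S) (hKL : 0 < KL) (hKQ : 0 < KQ) (hd : 0 < d)
    (hN : C * d * KQ ≤ N) (h : S * (d ^ n * N) ≤ H) :
    S * C / KL ≤ H / (KQ * KL * d ^ (n + 1)) := by
  rw [le_div_iff₀ (by positivity)]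
  refine le_trans ?_ h
  have h6 : S * C / KL * (KQ * KL * d ^ (n + 1)) = S * (d ^ n * (C * d * KQ)) := by
    field_simp
    ring
  rw [h6]
  have h7 : 0 ≤ d ^ n := by positivity
  exact mul_le_mul_of_nonneg_left (mul_le_mul_of_nonneg_left hN h7) hS

theorem lehmer {K : Type} [Field K] [NumberField K] {d : ℕ} (hd : 2 ≤ d) (C : ℝ) (hC : 0 < C)
    (c : Fin (d + 2) → 𝓞 K) (v : HeightOneSpectrum (𝓞 K)) (h0 : c 0 ≠ 0) (hv : c 0 ∈ v.asIdeal)
    (h : IrrMod v d fun i => c i.succ)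
    (hN : C * d * finrank ℚ K ≤ Real.log (Ideal.absNorm v.asIdeal))
    {L : Type} [Field L] [NumberField L] [Algebra K L] (x : L) (hL : ¬ d ∣ finrank K L) :
    ∃ r : ℝ, Tendsto (fun n : ℕ => logHeight₁ ((fun y => aeval y (phi c))^[n] x) /
        ((finrank ℚ L : ℝ) * (d : ℝ) ^ n)) atTop (𝓝 r) ∧ C / finrank K L ≤ r ∧
      (IsGalois K L → C ≤ r) := by
  obtain ⟨h1, h2, h3⟩ := num_facts c v h
  have hb : ((c 0 : 𝓞 K) : K) ≠ 0 := by exact_mod_cast h0
  have ha : ((c (Fin.last d).succ : 𝓞 K) : K) ≠ 0 := by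
    intro h4
    have h5 : c (Fin.last d).succ = 0 := by exact_mod_cast h4
    apply h.1
    change c (Fin.last d).succ ∈ v.asIdeal
    rw [h5]
    exact zero_mem _
  obtain ⟨r, hr⟩ := canon_exists hd (fun i : Fin (d + 1) => (c i.succ : K)) (c 0 : K) hb ha L x
  rw [← phi_eq] at hr
  have hKL : (finrank ℚ L : ℝ) = finrank ℚ K * finrank K L := by
    rw [← Nat.cast_mul, finrank_mul_finrank ℚ K L]
  have hK0 : (0 : ℝ) < finrank ℚ K := Nat.cast_pos.2 finrank_pos
  have hL0 : (0 : ℝ) < finrank K L := Nat.cast_pos.2 finrank_pos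
  have hd0 : (0 : ℝ) < d := Nat.cast_pos.2 (by omega)
  set S := ∑ q : v.asIdeal.primesOver (𝓞 L) with ¬ d ∣ q.1.inertiaDeg (𝓞 K),
      q.1.ramificationIdx (𝓞 K) * q.1.inertiaDeg (𝓞 K) with hS
  have key : (S : ℝ) * C / finrank K L ≤ r := by
    refine limit_bound hr _ fun n => ?_
    have h5 := height_iter v (c 0) hv h0 (num c) (by rw [h1]; omega) h2 h3 x n
    rw [h1, ← hS, ← phi_eq2] at h5
    rw [hKL]
    exact arith S C _ _ d _ _ n (Nat.cast_nonneg _) hL0 hK0 hd0 hN h5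
  refine ⟨r, hr, ?_, ?_⟩
  · refine le_trans ?_ key
    have h5 : (1 : ℝ) ≤ (S : ℝ) := by
      have := one_le_sum (L := L) v d hL
      exact Nat.one_le_cast.2 this
    refine div_le_div_of_nonneg_right ?_ hL0.le
    nlinarith
  · intro hG
    have h6 : S = finrank K L := sum_galois v d hL
    rw [h6, mul_comm, mul_div_assoc, div_self hL0.ne', mul_one] at key
    exact key

end Pool.Agent.TH377.Dyn
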