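import Mathlib

/-!
# Escape of orbits of polynomials with a non integral factor
-/

set_option autoImplicit false

namespace Pool.Agent.TH377.Dyn

open Polynomial

universe u v w

section escape

variable {L : Type u} {Γ : Type v} [Field L] [LinearOrderedCommGroupWithZero Γ]
  (V : Valuation L Γ)

/-- the value of an integral polynomial with unit leading coefficient at a non integral element -/
lemma val_eval (F : L[X]) (hF : ∀ i, V (F.coeff i) ≤ 1) (hl : V F.leadingCoeff = 1) (x : L)
    (hx : 1 < V x) : V (F.eval x) = V x ^ F.natDegree := by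
  have hx0 : V x ≠ 0 := (zero_lt_one.trans hx).ne'
  rw [eval_eq_sum_range, Finset.sum_range_succ]
  have h1 : V (F.coeff F.natDegree * x ^ F.natDegree) = V x ^ F.natDegree := by
    rw [map_mul, map_pow]
    have : V (F.coeff F.natDegree) = 1 := hl
    rw [this, one_mul]
  have h2 : V (∑ i ∈ Finset.range F.natDegree, F.coeff i * x ^ i) <
      V (F.coeff F.natDegree * x ^ F.natDegree) := by
    rw [h1]
    refine Valuation.map_sum_lt V (pow_ne_zero _ hx0) fun i hi => ?_
    rw [Finset.mem_range] at hi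
    rw [map_mul, map_pow]
    calc V (F.coeff i) * V x ^ i ≤ 1 * V x ^ i := mul_le_mul_left (hF i) _
      _ = V x ^ i := one_mul _
      _ < V x ^ F.natDegree := pow_lt_pow_right₀ hx hi
  rw [Valuation.map_add_eq_of_lt_right V h2, h1]

/-- the exponents -/
def gexp (d : ℕ) : ℕ → ℕ
  | 0 => 0
  | n + 1 => d * gexp d n + 1

lemma gexp_pos (d n : ℕ) : 0 < gexp d (n + 1) := Nat.succ_pos _

lemma pow_le_gexp (d n : ℕ) : d ^ n ≤ gexp d (n + 1) := by
  induction n with
  | zero => simp [gexp]
  | succ n ih =>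
    calc d ^ (n + 1) = d * d ^ n := by ring
      _ ≤ d * gexp d (n + 1) := Nat.mul_le_mul_left _ ih
      _ ≤ _ := Nat.le_succ _

/-- the orbit of a point that is not close to a root -/
theorem escape (F : L[X]) (hF : ∀ i, V (F.coeff i) ≤ 1) (hl : V F.leadingCoeff = 1)
    (b : L) (hb : V b < 1) (hb0 : b ≠ 0) (x : L)
    (hx : 1 < V x ∨ 1 ≤ V (F.eval x)) (n : ℕ) :
    (V b)⁻¹ ^ gexp F.natDegree (n + 1) ≤ V ((fun y => b⁻¹ * F.eval y)^[n + 1] x) := by
  have hVb : V b ≠ 0 := (Valuation.ne_zero_iff V).2 hb0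
  have hb1 : 1 < (V b)⁻¹ := (one_lt_inv₀ (zero_lt_iff.2 hVb)).2 hb
  have hstep : ∀ y : L, 1 < V y → V (b⁻¹ * F.eval y) = (V b)⁻¹ * V y ^ F.natDegree := by
    intro y hy
    rw [map_mul, map_inv₀, val_eval V F hF hl y hy]
  induction n with
  | zero =>
    change (V b)⁻¹ ^ (F.natDegree * 0 + 1) ≤ V (b⁻¹ * F.eval x)
    rw [mul_zero, zero_add, pow_one]
    by_cases h1 : 1 < V x
    · rw [hstep x h1]
      exact le_mul_of_one_le_right' (one_le_pow₀ h1.le)
    · rcases hx with hx | hx
      · exact absurd hx h1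
      · rw [map_mul, map_inv₀]
        exact le_mul_of_one_le_right' hx
  | succ n ih =>
    rw [Function.iterate_succ_apply']
    have h2 : 1 < V ((fun y => b⁻¹ * F.eval y)^[n + 1] x) :=
      (one_lt_pow₀ hb1 (gexp_pos _ _).ne').trans_le ih
    rw [hstep _ h2]
    change (V b)⁻¹ ^ (F.natDegree * gexp F.natDegree (n + 1) + 1) ≤ _
    rw [pow_succ', mul_comm F.natDegree, pow_mul]
    exact mul_le_mul_right (pow_le_pow_left₀ zero_le ih _) _

/-- such an orbit is infinite -/
theorem escape_injective (F : L[X]) (hF : ∀ i, V (F.coeff i) ≤ 1) (hl : V F.leadingCoeff = 1)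
    (hd : 0 < F.natDegree)
    (b : L) (hb : V b < 1) (hb0 : b ≠ 0) (x : L)
    (hx : 1 < V x ∨ 1 ≤ V (F.eval x)) :
    Function.Injective fun n => (fun y => b⁻¹ * F.eval y)^[n] x := by
  have hVb : V b ≠ 0 := (Valuation.ne_zero_iff V).2 hb0
  have hb1 : 1 < (V b)⁻¹ := (one_lt_inv₀ (zero_lt_iff.2 hVb)).2 hb
  have hstep : ∀ y : L, 1 < V y → V y < V (b⁻¹ * F.eval y) := by
    intro y hy
    rw [map_mul, map_inv₀, val_eval V F hF hl y hy]
    calc V y = V y ^ 1 := (pow_one _).symm
      _ ≤ V y ^ F.natDegree := pow_le_pow_right₀ hy.le hd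
      _ < (V b)⁻¹ * V y ^ F.natDegree := by
        have h0 : 0 < V y ^ F.natDegree := pow_pos (zero_lt_one.trans hy) _
        calc V y ^ F.natDegree = 1 * V y ^ F.natDegree := (one_mul _).symm
          _ < _ := mul_lt_mul_of_pos_right hb1 h0
  have hpos : ∀ n, 1 < V ((fun y => b⁻¹ * F.eval y)^[n + 1] x) := fun n =>
    (one_lt_pow₀ hb1 (gexp_pos _ _).ne').trans_le (escape V F hF hl b hb hb0 x hx n)
  have hmono : StrictMono fun n => V ((fun y => b⁻¹ * F.eval y)^[n] x) := by
    refine strictMono_nat_of_lt_succ fun n => ?_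
    cases n with
    | zero =>
      by_cases h1 : 1 < V x
      · exact hstep x h1
      · exact (not_lt.1 h1).trans_lt (hpos 0)
    | succ n =>
      have h2 := hstep _ (hpos n)
      rw [← Function.iterate_succ_apply' (fun y => b⁻¹ * F.eval y)] at h2
      exact h2
  intro m n hmn
  exact hmono.injective (congrArg V hmn)

end escape

end Pool.Agent.TH377.Dyn
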