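import Pool.Agent.TH377.Dyn.Loc

/-!
# The residue degrees at the places where an orbit stays bounded
-/

set_option autoImplicit false

namespace Pool.Agent.TH377.Dyn

open Polynomial NumberField IsDedekindDomain

universe u v

variable {K : Type u} {L : Type v} [Field K] [NumberField K] [Field L] [NumberField L]
  [Algebra K L]

/-- if an irreducible polynomial has a root in the residue field, its degree divides the residue
degree -/
theorem dvd_inertia (v : HeightOneSpectrum (𝓞 K)) (w : HeightOneSpectrum (𝓞 L))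
    [hw : w.asIdeal.LiesOver v.asIdeal] (F : (𝓞 K)[X]) (hlc : F.leadingCoeff ∉ v.asIdeal)
    (hirr : Irreducible (F.map (Ideal.Quotient.mk v.asIdeal))) (x : L)
    (hx : w.valuation L x ≤ 1)
    (hF : w.valuation L ((F.map (algebraMap (𝓞 K) L)).eval x) < 1) :
    F.natDegree ∣ w.asIdeal.inertiaDeg (𝓞 K) := by
  classical
  have hmax : v.asIdeal.IsMaximal := v.isMaximal
  have hmaxw : w.asIdeal.IsMaximal := w.isMaximal
  let _ : Field (𝓞 K ⧸ v.asIdeal) := Ideal.Quotient.field _
  let _ : Field (𝓞 L ⧸ w.asIdeal) := Ideal.Quotient.field _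
  obtain ⟨y, hy⟩ := w.exists_valuation_sub_lt_of_integer hx 1
  rw [Units.val_one] at hy
  -- the value at `y`
  have hmem : aeval y F ∈ w.asIdeal := by
    rw [← w.valuation_lt_one_iff_mem (K := L)]
    set V := w.valuation L with hV
    let φ : 𝓞 L →+* V.valuationSubring :=
      { toFun := fun z => ⟨algebraMap (𝓞 L) L z, w.valuation_le_one z⟩
        map_one' := Subtype.ext (map_one _)
        map_mul' := fun a b => Subtype.ext (map_mul _ _ _)
        map_zero' := Subtype.ext (map_zero _)
        map_add' := fun a b => Subtype.ext (map_add _ _ _) }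
    set G := F.map (φ.comp (algebraMap (𝓞 K) (𝓞 L))) with hG
    set X' : V.valuationSubring := ⟨x, hx⟩ with hX'
    have hsub : V.valuationSubring.subtype.comp (φ.comp (algebraMap (𝓞 K) (𝓞 L))) =
        algebraMap (𝓞 K) L := by
      ext z
      change algebraMap (𝓞 L) L (algebraMap (𝓞 K) (𝓞 L) z) = _
      rw [← IsScalarTower.algebraMap_apply]
    have h1 : ∀ z : V.valuationSubring, ((G.eval z : V.valuationSubring) : L) =
        (F.map (algebraMap (𝓞 K) L)).eval (z : L) := by
      intro z
      change V.valuationSubring.subtype (G.eval z) = _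
      rw [← Polynomial.eval_map_apply, hG, Polynomial.map_map, hsub]
      rfl
    have h2 : algebraMap (𝓞 L) L (aeval y F) = ((G.eval (φ y) : V.valuationSubring) : L) := by
      rw [h1]
      change _ = (F.map (algebraMap (𝓞 K) L)).eval (algebraMap (𝓞 L) L y)
      rw [eval_map_algebraMap, aeval_algebraMap_apply]
    obtain ⟨t, ht⟩ := Polynomial.sub_dvd_eval_sub (φ y) X' G
    have h3 : G.eval (φ y) = G.eval X' + (φ y - X') * t := by rw [← ht]; ring
    have h5 : V (algebraMap (𝓞 L) L (aeval y F)) < 1 := by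
      rw [h2, h3]
      push_cast
      refine (Valuation.map_add V _ _).trans_lt (max_lt ?_ ?_)
      · rw [h1]
        exact hF
      · rw [map_mul]
        have h4 : V ((φ y : L) - (X' : L)) < 1 := hy
        calc V ((φ y : L) - (X' : L)) * V (t : L) ≤ V ((φ y : L) - (X' : L)) * 1 :=
              mul_le_mul_right t.2 _
          _ = V ((φ y : L) - (X' : L)) := mul_one _
          _ < 1 := h4
    exact h5
  -- the root in the residue field
  set z : 𝓞 L ⧸ w.asIdeal := Ideal.Quotient.mk _ y with hz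
  have hroot : aeval z (F.map (Ideal.Quotient.mk v.asIdeal)) = 0 := by
    have h1 : (Ideal.Quotient.mk w.asIdeal) (aeval y F) = 0 := Ideal.Quotient.eq_zero_iff_mem.2 hmem
    rw [aeval_def, eval₂_map]
    rw [aeval_def, hom_eval₂] at h1
    exact h1
  have hint : IsIntegral (𝓞 K ⧸ v.asIdeal) z := Algebra.IsIntegral.isIntegral z
  have hdeg : (F.map (Ideal.Quotient.mk v.asIdeal)).natDegree = F.natDegree := by
    refine natDegree_map_of_leadingCoeff_ne_zero _ ?_
    rw [Ne, Ideal.Quotient.eq_zero_iff_mem]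
    exact hlc
  have hass : Associated (minpoly (𝓞 K ⧸ v.asIdeal) z) (F.map (Ideal.Quotient.mk v.asIdeal)) :=
    (minpoly.irreducible hint).associated_of_dvd hirr (minpoly.dvd _ _ hroot)
  have hd2 : (minpoly (𝓞 K ⧸ v.asIdeal) z).natDegree = F.natDegree := by
    rw [← hdeg]
    exact natDegree_eq_of_degree_eq (degree_eq_degree_of_associated hass)
  rw [Ideal.inertiaDeg_eq_of_isMaximal v.asIdeal w.asIdeal, ← hd2]
  exact minpoly.degree_dvd hint

variable (L) in
/-- the fundamental identity -/
theorem sum_ef (v : HeightOneSpectrum (𝓞 K)) :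
    ∑ q : v.asIdeal.primesOver (𝓞 L), q.1.ramificationIdx (𝓞 K) * q.1.inertiaDeg (𝓞 K) =
      Module.finrank K L := by
  have := v.isMaximal
  rw [Ideal.sum_ramification_inertia_eq_finrank, IsFractionRing.finrank_eq (𝓞 K) K (𝓞 L) L]

/-- a prime over `v` -/
def ovr (v : HeightOneSpectrum (𝓞 K)) (q : v.asIdeal.primesOver (𝓞 L)) :
    HeightOneSpectrum (𝓞 L) where
  asIdeal := q.1
  isPrime := q.2.1
  ne_bot := by
    have := q.2.2
    intro h
    apply v.ne_bot
    have h1 := this.over
    rw [h] at h1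
    rw [h1]
    exact Ideal.comap_bot_of_injective _ (FaithfulSMul.algebraMap_injective (𝓞 K) (𝓞 L))

instance ovr_lies (v : HeightOneSpectrum (𝓞 K)) (q : v.asIdeal.primesOver (𝓞 L)) :
    (ovr v q).asIdeal.LiesOver v.asIdeal := q.2.2

/-- the polynomial over `L` -/
lemma coeff_le (v : HeightOneSpectrum (𝓞 K)) (q : v.asIdeal.primesOver (𝓞 L)) (F : (𝓞 K)[X])
    (i : ℕ) : (ovr v q).valuation L ((F.map (algebraMap (𝓞 K) L)).coeff i) ≤ 1 := by
  rw [coeff_map, IsScalarTower.algebraMap_apply (𝓞 K) (𝓞 L) L]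
  exact (ovr v q).valuation_le_one _

lemma val_eq_one (v : HeightOneSpectrum (𝓞 K)) (q : v.asIdeal.primesOver (𝓞 L)) (a : 𝓞 K)
    (ha : a ∉ v.asIdeal) : (ovr v q).valuation L (algebraMap (𝓞 K) L a) = 1 := by
  rw [IsScalarTower.algebraMap_apply (𝓞 K) (𝓞 L) L,
    HeightOneSpectrum.valuation_eq_one_iff_notMem]
  intro h
  apply ha
  have h1 := q.2.2.over
  rw [h1]
  exact h

lemma val_lt_one (v : HeightOneSpectrum (𝓞 K)) (q : v.asIdeal.primesOver (𝓞 L)) (a : 𝓞 K)
    (ha : a ∈ v.asIdeal) : (ovr v q).valuation L (algebraMap (𝓞 K) L a) < 1 := by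
  rw [IsScalarTower.algebraMap_apply (𝓞 K) (𝓞 L) L,
    HeightOneSpectrum.valuation_lt_one_iff_mem]
  have h1 := q.2.2.over
  rw [h1] at ha
  exact ha

/-- if the orbit of a point is not injective, the degree of the extension is divisible by the
degree of the polynomial -/
theorem dvd_finrank (v : HeightOneSpectrum (𝓞 K)) (b : 𝓞 K) (hb : b ∈ v.asIdeal) (hb0 : b ≠ 0)
    (F : (𝓞 K)[X]) (hd : 0 < F.natDegree) (hlc : F.leadingCoeff ∉ v.asIdeal)
    (hirr : Irreducible (F.map (Ideal.Quotient.mk v.asIdeal))) (x : L)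
    (hx : ¬ Function.Injective fun n =>
      (fun y => (algebraMap (𝓞 K) L b)⁻¹ * (F.map (algebraMap (𝓞 K) L)).eval y)^[n] x) :
    F.natDegree ∣ Module.finrank K L := by
  have hinj : Function.Injective (algebraMap (𝓞 K) L) :=
    FaithfulSMul.algebraMap_injective (𝓞 K) L
  rw [← sum_ef L v]
  refine Finset.dvd_sum fun q _ => Dvd.dvd.mul_left ?_ _
  have h1 : ¬ (1 < (ovr v q).valuation L x ∨
      1 ≤ (ovr v q).valuation L ((F.map (algebraMap (𝓞 K) L)).eval x)) := by
    intro h
    apply hx
    refine escape_injective ((ovr v q).valuation L) _ (coeff_le v q F) ?_ ?_ _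
      (val_lt_one v q b hb) ?_ x h
    · rw [leadingCoeff_map_of_injective hinj]
      exact val_eq_one v q _ hlc
    · rwa [natDegree_map_eq_of_injective hinj]
    · rwa [Ne, map_eq_zero_iff _ hinj]
  rw [not_or, not_lt, not_le] at h1
  exact dvd_inertia v (ovr v q) F hlc hirr x h1.1 h1.2

end Pool.Agent.TH377.Dyn
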