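import Pool.Agent.TH377.Dyn.Rat

/-!
# Endomorphisms of projective spaces
-/

set_option autoImplicit false
set_option maxHeartbeats 400000

namespace Pool.Agent.TH377.Dyn

open NumberField IsDedekindDomain

universe u v

section map

variable {L : Type u} [Field L] {N d : ℕ}

/-- the map `(b x₀^d : F(x_i, x₀) + b x₀ G_i(x))` -/
noncomputable def pm (a : Fin (d + 1) → L) (b : L) (G : Fin N → MvPolynomial (Fin (N + 1)) L)
    (x : Fin (N + 1) → L) : Fin (N + 1) → L :=
  Fin.cons (b * x 0 ^ d) fun i => (∑ j : Fin (d + 1), a j * (x i.succ ^ (j : ℕ) *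
    x 0 ^ (d - j))) + b * x 0 * MvPolynomial.eval x (G i)

lemma pm_zero (a : Fin (d + 1) → L) (b : L) (G : Fin N → MvPolynomial (Fin (N + 1)) L)
    (x : Fin (N + 1) → L) : pm a b G x 0 = b * x 0 ^ d := rfl

lemma pm_succ (a : Fin (d + 1) → L) (b : L) (G : Fin N → MvPolynomial (Fin (N + 1)) L)
    (x : Fin (N + 1) → L) (i : Fin N) : pm a b G x i.succ = (∑ j : Fin (d + 1), a j *
      (x i.succ ^ (j : ℕ) * x 0 ^ (d - j))) + b * x 0 * MvPolynomial.eval x (G i) := rfl

lemma eval_smul_hom {p : MvPolynomial (Fin (N + 1)) L} {m : ℕ} (hp : p.IsHomogeneous m)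
    (b : L) (z : Fin (N + 1) → L) :
    MvPolynomial.eval (b • z) p = b ^ m * MvPolynomial.eval z p := by
  rw [MvPolynomial.eval_eq', MvPolynomial.eval_eq', Finset.mul_sum]
  refine Finset.sum_congr rfl fun s hs => ?_
  have h1 : ∑ i, s i = m := by
    have := hp (MvPolynomial.mem_support_iff.mp hs)
    rw [← this]
    have h3 := Finsupp.degree_eq_sum (σ := Fin (N + 1)) s
    rw [← h3, Finsupp.degree_eq_weight_one]
    rfl
  simp only [Pi.smul_apply, smul_eq_mul, mul_pow]
  rw [Finset.prod_mul_distrib, Finset.prod_pow_eq_pow_sum, h1]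
  ring

/-- the forms are homogeneous -/
lemma pm_smul (hd : 1 ≤ d) (a : Fin (d + 1) → L) (b : L)
    (G : Fin N → MvPolynomial (Fin (N + 1)) L) (hG : ∀ i, (G i).IsHomogeneous (d - 1)) (t : L)
    (x : Fin (N + 1) → L) : pm a b G (t • x) = t ^ d • pm a b G x := by
  funext i
  refine Fin.cases ?_ (fun i => ?_) i
  · rw [Pi.smul_apply, pm_zero, pm_zero, Pi.smul_apply, smul_eq_mul, smul_eq_mul, mul_pow]
    ring
  · rw [Pi.smul_apply, pm_succ, pm_succ, eval_smul_hom (hG i), smul_eq_mul, mul_add,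
      Finset.mul_sum]
    congr 1
    · refine Finset.sum_congr rfl fun j _ => ?_
      rw [Pi.smul_apply, Pi.smul_apply, smul_eq_mul, smul_eq_mul, mul_pow, mul_pow]
      have h1 : t ^ d = t ^ (j : ℕ) * t ^ (d - j) := by
        rw [← pow_add]
        congr 1
        have := j.2
        omega
      rw [h1]
      ring
    · rw [Pi.smul_apply, smul_eq_mul]
      have h1 : t ^ d = t * t ^ (d - 1) := by
        rw [← pow_succ']
        congr 1
        omega
      rw [h1]
      ring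

variable {Γ : Type v} [LinearOrderedCommGroupWithZero Γ] (V : Valuation L Γ)

/-- the largest coordinate -/
noncomputable def big (x : Fin (N + 1) → L) : Γ :=
  Finset.univ.sup' ⟨0, Finset.mem_univ _⟩ fun i => V (x i)

lemma le_big (x : Fin (N + 1) → L) (i : Fin (N + 1)) : V (x i) ≤ big V x :=
  Finset.le_sup' (fun i => V (x i)) (Finset.mem_univ i)

lemma exists_big (x : Fin (N + 1) → L) : ∃ i, big V x = V (x i) := by
  obtain ⟨i, -, hi⟩ := Finset.exists_mem_eq_sup' ⟨0, Finset.mem_univ _⟩ fun i => V (x i)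
  exact ⟨i, hi⟩

lemma big_smul (t : L) (x : Fin (N + 1) → L) : big V (t • x) = V t * big V x := by
  refine le_antisymm ?_ ?_
  · obtain ⟨i, hi⟩ := exists_big V (t • x)
    rw [hi, Pi.smul_apply, smul_eq_mul, map_mul]
    exact mul_le_mul_right (le_big V x i) _
  · obtain ⟨i, hi⟩ := exists_big V x
    rw [hi, ← map_mul]
    exact le_big V (t • x) i

/-- the size of a form -/
lemma val_form (p : MvPolynomial (Fin (N + 1)) L) {m : ℕ} (hp : p.IsHomogeneous m)
    (hc : ∀ s, V (p.coeff s) ≤ 1) (x : Fin (N + 1) → L) :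
    V (MvPolynomial.eval x p) ≤ big V x ^ m := by
  rw [MvPolynomial.eval_eq']
  refine Valuation.map_sum_le V fun s hs => ?_
  have h1 : ∑ i, s i = m := by
    have := hp (MvPolynomial.mem_support_iff.mp hs)
    rw [← this]
    have h3 := Finsupp.degree_eq_sum (σ := Fin (N + 1)) s
    rw [← h3, Finsupp.degree_eq_weight_one]
    rfl
  rw [map_mul, map_prod, ← h1, ← Finset.prod_pow_eq_pow_sum]
  calc V (p.coeff s) * ∏ i, V (x i ^ s i) ≤ 1 * ∏ i, V (x i ^ s i) := mul_le_mul_left (hc s) _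
    _ = ∏ i, V (x i ^ s i) := one_mul _
    _ ≤ ∏ i, big V x ^ s i := by
      refine Finset.prod_le_prod' fun i _ => ?_
      rw [map_pow]
      exact pow_le_pow_left₀ zero_le (le_big V x i) _

open Polynomial in
/-- a coordinate of the image is large -/
theorem exists_large (hN : 1 ≤ N) (hd : 1 ≤ d) (F : L[X]) (hF : ∀ i, V (F.coeff i) ≤ 1)
    (hl : V F.leadingCoeff = 1) (hFd : F.natDegree = d)
    (hroot : ∀ y, V y ≤ 1 → 1 ≤ V (F.eval y)) (b : L) (hb : V b < 1)
    (G : Fin N → MvPolynomial (Fin (N + 1)) L) (hG : ∀ i, (G i).IsHomogeneous (d - 1))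
    (hGc : ∀ i s, V ((G i).coeff s) ≤ 1) (z : Fin (N + 1) → L) (hz : z 0 = 1) :
    big V z ≤ big V (pm (fun j : Fin (d + 1) => F.coeff j) b G z) := by
  have h1 : ∀ i : Fin N, pm (fun j : Fin (d + 1) => F.coeff j) b G z i.succ =
      F.eval (z i.succ) + b * MvPolynomial.eval z (G i) := by
    intro i
    rw [pm_succ, hz, mul_one]
    congr 1
    rw [eval_eq_sum_range, hFd, Finset.sum_range]
    refine Finset.sum_congr rfl fun j _ => ?_
    rw [one_pow, mul_one]
  have hone : 1 ≤ big V z := by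
    have := le_big V z 0
    rwa [hz, map_one] at this
  have hbig0 : 0 < big V z := zero_lt_one.trans_le hone
  have hsmall : ∀ i : Fin N, V (b * MvPolynomial.eval z (G i)) < big V z ^ (d - 1) := by
    intro i
    rw [map_mul]
    calc V b * V (MvPolynomial.eval z (G i)) ≤ V b * big V z ^ (d - 1) :=
          mul_le_mul_right (val_form V (G i) (hG i) (hGc i) z) _
      _ < 1 * big V z ^ (d - 1) := mul_lt_mul_of_pos_right hb (pow_pos hbig0 _)
      _ = big V z ^ (d - 1) := one_mul _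
  obtain ⟨i, hi⟩ := exists_big V z
  by_cases hgt : 1 < big V z
  · -- a large coordinate
    have hi0 : i ≠ 0 := by
      rintro rfl
      rw [hz, map_one] at hi
      exact hgt.ne' hi
    obtain ⟨j, rfl⟩ := Fin.exists_succ_eq.2 hi0
    have h2 : V (F.eval (z j.succ)) = big V z ^ d := by
      rw [val_eval V F hF hl _ (by rwa [← hi]), hFd, ← hi]
    have h3 : V (b * MvPolynomial.eval z (G j)) < V (F.eval (z j.succ)) := by
      rw [h2]
      exact (hsmall j).trans_le (pow_le_pow_right₀ hone (Nat.sub_le _ _))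
    refine le_trans ?_ (le_big V _ j.succ)
    rw [h1, Valuation.map_add_eq_of_lt_left V h3, h2]
    calc big V z = big V z ^ 1 := (pow_one _).symm
      _ ≤ big V z ^ d := pow_le_pow_right₀ hone hd
  · have heq : big V z = 1 := le_antisymm (not_lt.1 hgt) hone
    let j : Fin N := ⟨0, hN⟩
    have h2 : 1 ≤ V (F.eval (z j.succ)) := hroot _ (by
      have := le_big V z j.succ
      rwa [heq] at this)
    have h3 : V (b * MvPolynomial.eval z (G j)) < V (F.eval (z j.succ)) := by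
      have := hsmall j
      rw [heq, one_pow] at this
      exact this.trans_le h2
    refine le_trans ?_ (le_big V _ j.succ)
    rw [h1, Valuation.map_add_eq_of_lt_left V h3, heq]
    exact h2

open Polynomial in
/-- points with `x₀ ≠ 0` are not preperiodic -/
theorem pm_not_pre (hN : 1 ≤ N) (hd : 1 ≤ d) (F : L[X]) (hF : ∀ i, V (F.coeff i) ≤ 1)
    (hl : V F.leadingCoeff = 1) (hFd : F.natDegree = d)
    (hroot : ∀ y, V y ≤ 1 → 1 ≤ V (F.eval y)) (b : L) (hb : V b < 1) (hb0 : b ≠ 0)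
    (G : Fin N → MvPolynomial (Fin (N + 1)) L) (hG : ∀ i, (G i).IsHomogeneous (d - 1))
    (hGc : ∀ i s, V ((G i).coeff s) ≤ 1) (x : Fin (N + 1) → L) (hx : x 0 ≠ 0) (m n : ℕ)
    (hmn : m < n) (t : L) (ht : t ≠ 0) :
    (pm (fun j : Fin (d + 1) => F.coeff j) b G)^[n] x ≠
      t • (pm (fun j : Fin (d + 1) => F.coeff j) b G)^[m] x := by
  set f := pm (fun j : Fin (d + 1) => F.coeff j) b G with hf
  have hVb : V b ≠ 0 := (Valuation.ne_zero_iff V).2 hb0
  -- the invariant
  let μ : (Fin (N + 1) → L) → Γ := fun y => big V y / V (y 0)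
  have hμs : ∀ (s : L) (y : Fin (N + 1) → L), s ≠ 0 → μ (s • y) = μ y := by
    intro s y hs
    change big V (s • y) / V (s * y 0) = big V y / V (y 0)
    rw [big_smul, map_mul, mul_div_mul_left _ _ ((Valuation.ne_zero_iff V).2 hs)]
  have hstep : ∀ y : Fin (N + 1) → L, y 0 ≠ 0 → μ y < μ (f y) := by
    intro y hy
    set z := (y 0)⁻¹ • y with hz
    have hz0 : z 0 = 1 := by
      rw [hz, Pi.smul_apply, smul_eq_mul, inv_mul_cancel₀ hy]
    have e1 : μ y = big V z := by
      rw [← hμs (y 0)⁻¹ y (inv_ne_zero hy)]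
      change big V z / V (z 0) = _
      rw [hz0, map_one, div_one]
    have e2 : μ (f y) = μ (f z) := by
      rw [hz, hf, pm_smul hd _ _ _ hG, hμs _ _ (pow_ne_zero _ (inv_ne_zero hy))]
    have e3 : f z 0 = b := by
      rw [hf, pm_zero, hz0, one_pow, mul_one]
    have e4 := exists_large V hN hd F hF hl hFd hroot b hb G hG hGc z hz0
    have hone : 0 < big V z := by
      have := le_big V z 0
      rw [hz0, map_one] at this
      exact zero_lt_one.trans_le this
    rw [e1, e2]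
    change big V z < big V (f z) / V (f z 0)
    rw [e3, lt_div_iff₀ (zero_lt_iff.2 hVb)]
    calc big V z * V b < big V z * 1 := mul_lt_mul_of_pos_left hb hone
      _ = big V z := mul_one _
      _ ≤ _ := e4
  have hne : ∀ k, (f^[k] x) 0 ≠ 0 := by
    intro k
    induction k with
    | zero => exact hx
    | succ k ih =>
      rw [Function.iterate_succ_apply', hf, pm_zero]
      exact mul_ne_zero hb0 (pow_ne_zero _ ih)
  have hmono : StrictMono fun k => μ (f^[k] x) := by
    refine strictMono_nat_of_lt_succ fun k => ?_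
    have := hstep _ (hne k)
    rwa [← Function.iterate_succ_apply' f] at this
  intro h
  have h1 := congrArg μ h
  rw [hμs t _ ht] at h1
  exact (hmono hmn).ne' h1

section hyperplane

/-- on the hyperplane `x₀ = 0` the map is the power map -/
lemma pm_hyper (hd : 1 ≤ d) (a : Fin (d + 1) → L) (b : L)
    (G : Fin N → MvPolynomial (Fin (N + 1)) L) (x : Fin (N + 1) → L) (hx : x 0 = 0) :
    pm a b G x = a (Fin.last d) • fun i => x i ^ d := by
  funext i
  refine Fin.cases ?_ (fun i => ?_) i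
  · rw [pm_zero, Pi.smul_apply, hx, zero_pow (by omega), mul_zero, smul_zero]
  · rw [pm_succ, hx, mul_zero, zero_mul, add_zero, Finset.sum_eq_single (Fin.last d)]
    · rw [Fin.val_last, Nat.sub_self, pow_zero, mul_one, Pi.smul_apply, smul_eq_mul]
    · intro j _ hj
      have h3 : d - (j : ℕ) ≠ 0 := by
        have h4 : (j : ℕ) ≠ d := fun h => hj (Fin.ext (by rw [h, Fin.val_last]))
        have := j.2
        omega
      rw [zero_pow h3, mul_zero, mul_zero]
    · intro h
      exact absurd (Finset.mem_univ _) h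

lemma pm_hyper_iter (hd : 1 ≤ d) (a : Fin (d + 1) → L) (ha : a (Fin.last d) ≠ 0) (b : L)
    (G : Fin N → MvPolynomial (Fin (N + 1)) L) (hG : ∀ i, (G i).IsHomogeneous (d - 1))
    (x : Fin (N + 1) → L) (hx : x 0 = 0) (n : ℕ) :
    ∃ γ : L, γ ≠ 0 ∧ (pm a b G)^[n] x = γ • fun i => x i ^ d ^ n := by
  induction n with
  | zero => exact ⟨1, one_ne_zero, by simp⟩
  | succ n ih =>
    obtain ⟨γ, hγ, h⟩ := ih
    refine ⟨γ ^ d * a (Fin.last d), mul_ne_zero (pow_ne_zero _ hγ) ha, ?_⟩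
    rw [Function.iterate_succ_apply', h, pm_smul hd a b G hG,
      pm_hyper hd a b G _ (by
        change x 0 ^ d ^ n = 0
        rw [hx, zero_pow (pow_pos (by omega) _).ne']), smul_smul]
    congr 1
    funext i
    rw [← pow_mul, pow_succ]

/-- the preperiodic points on the hyperplane -/
theorem pm_hyper_iff (hd : 2 ≤ d) (a : Fin (d + 1) → L) (ha : a (Fin.last d) ≠ 0) (b : L)
    (G : Fin N → MvPolynomial (Fin (N + 1)) L) (hG : ∀ i, (G i).IsHomogeneous (d - 1))
    (x : Fin (N + 1) → L) (hx0 : x ≠ 0) (hx : x 0 = 0) :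
    (∃ m n : ℕ, m < n ∧ ∃ t : L, t ≠ 0 ∧ (pm a b G)^[n] x = t • (pm a b G)^[m] x) ↔
      ∃ s : L, s ≠ 0 ∧ ∀ i, s * x i = 0 ∨ ∃ k : ℕ, 0 < k ∧ (s * x i) ^ k = 1 := by
  have hd1 : 1 ≤ d := by omega
  constructor
  · rintro ⟨m, n, hmn, t, ht, h⟩
    obtain ⟨γ, hγ, h1⟩ := pm_hyper_iter hd1 a ha b G hG x hx n
    obtain ⟨γ', hγ', h2⟩ := pm_hyper_iter hd1 a ha b G hG x hx m
    rw [h1, h2] at h
    obtain ⟨j, hj⟩ := Function.ne_iff.1 hx0
    have hj : x j ≠ 0 := hj
    refine ⟨(x j)⁻¹, inv_ne_zero hj, fun i => ?_⟩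
    have ei : γ * x i ^ d ^ n = t * (γ' * x i ^ d ^ m) := congrFun h i
    have ej : γ * x j ^ d ^ n = t * (γ' * x j ^ d ^ m) := congrFun h j
    by_cases hxi : x i = 0
    · left
      rw [hxi, mul_zero]
    · right
      have hlt : d ^ m < d ^ n := Nat.pow_lt_pow_right (by omega) hmn
      refine ⟨d ^ n - d ^ m, Nat.sub_pos_of_lt hlt, ?_⟩
      have hu : (x j)⁻¹ * x i ≠ 0 := mul_ne_zero (inv_ne_zero hj) hxi
      have h3 : ((x j)⁻¹ * x i) ^ d ^ n = ((x j)⁻¹ * x i) ^ d ^ m := by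
        have hA : x i ^ d ^ m ≠ 0 := pow_ne_zero _ hxi
        have hB : x j ^ d ^ m ≠ 0 := pow_ne_zero _ hj
        have hC : x j ^ d ^ n ≠ 0 := pow_ne_zero _ hj
        rw [mul_pow, mul_pow, inv_pow, inv_pow, inv_mul_eq_div, inv_mul_eq_div,
          div_eq_div_iff hC hB]
        have h4 : t * γ' ≠ 0 := mul_ne_zero ht hγ'
        have h5 : γ * (x i ^ d ^ n * x j ^ d ^ m) = γ * (x i ^ d ^ m * x j ^ d ^ n) := by
          calc γ * (x i ^ d ^ n * x j ^ d ^ m) = (γ * x i ^ d ^ n) * x j ^ d ^ m := by ring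
            _ = (t * (γ' * x i ^ d ^ m)) * x j ^ d ^ m := by rw [ei]
            _ = (t * (γ' * x j ^ d ^ m)) * x i ^ d ^ m := by ring
            _ = (γ * x j ^ d ^ n) * x i ^ d ^ m := by rw [ej]
            _ = _ := by ring
        exact mul_left_cancel₀ hγ h5
      have h4 : ((x j)⁻¹ * x i) ^ (d ^ n - d ^ m) * ((x j)⁻¹ * x i) ^ d ^ m =
          1 * ((x j)⁻¹ * x i) ^ d ^ m := by
        rw [← pow_add, Nat.sub_add_cancel hlt.le, one_mul, h3]
      exact mul_right_cancel₀ (pow_ne_zero _ hu) h4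
  · rintro ⟨s, hs, h⟩
    -- a common exponent
    obtain ⟨k, hk, hk1⟩ : ∃ k : ℕ, 0 < k ∧ ∀ i, s * x i = 0 ∨ (s * x i) ^ k = 1 := by
      have h' : ∀ i, ∃ k : ℕ, 0 < k ∧ (s * x i = 0 ∨ (s * x i) ^ k = 1) := by
        intro i
        rcases h i with h0 | ⟨k, hk, h1⟩
        · exact ⟨1, one_pos, Or.inl h0⟩
        · exact ⟨k, hk, Or.inr h1⟩
      choose k hk hk1 using h'
      refine ⟨∏ i, k i, Finset.prod_pos fun i _ => hk i, fun i => ?_⟩
      rcases hk1 i with h0 | h1
      · exact Or.inl h0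
      · right
        obtain ⟨e, he⟩ := Finset.dvd_prod_of_mem k (Finset.mem_univ i)
        rw [he, pow_mul, h1, one_pow]
    have hnz : NeZero k := ⟨hk.ne'⟩
    obtain ⟨m, n, hmn, hz⟩ : ∃ m n : ℕ, m < n ∧ ((d ^ m : ℕ) : ZMod k) = ((d ^ n : ℕ) : ZMod k) := by
      obtain ⟨m, n, hne, h1⟩ := Finite.exists_ne_map_eq_of_infinite
        fun n : ℕ => ((d ^ n : ℕ) : ZMod k)
      rcases lt_or_gt_of_ne hne with h2 | h2
      · exact ⟨m, n, h2, h1⟩
      · exact ⟨n, m, h2, h1.symm⟩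
    have hmod : d ^ m ≡ d ^ n [MOD k] := (ZMod.natCast_eq_natCast_iff _ _ _).1 hz
    have hpow : ∀ i, (s * x i) ^ d ^ m = (s * x i) ^ d ^ n := by
      intro i
      rcases hk1 i with h0 | h1
      · rw [h0, zero_pow (pow_pos (by omega) _).ne', zero_pow (pow_pos (by omega) _).ne']
      · have hred : ∀ e : ℕ, (s * x i) ^ e = (s * x i) ^ (e % k) := by
          intro e
          conv_lhs => rw [← Nat.mod_add_div e k, pow_add, pow_mul, h1, one_pow, mul_one]
        rw [hred (d ^ m), hred (d ^ n)]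
        congr 1
    obtain ⟨γ, hγ, h1⟩ := pm_hyper_iter hd1 a ha b G hG x hx n
    obtain ⟨γ', hγ', h2⟩ := pm_hyper_iter hd1 a ha b G hG x hx m
    refine ⟨m, n, hmn, γ * (s ^ d ^ n)⁻¹ * s ^ d ^ m * γ'⁻¹, ?_, ?_⟩
    · exact mul_ne_zero (mul_ne_zero (mul_ne_zero hγ (inv_ne_zero (pow_ne_zero _ hs)))
        (pow_ne_zero _ hs)) (inv_ne_zero hγ')
    · rw [h1, h2]
      funext i
      change γ * x i ^ d ^ n = γ * (s ^ d ^ n)⁻¹ * s ^ d ^ m * γ'⁻¹ * (γ' * x i ^ d ^ m)
      have h3 := hpow i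
      rw [mul_pow, mul_pow] at h3
      have hs1 : s ^ d ^ n ≠ 0 := pow_ne_zero _ hs
      calc γ * x i ^ d ^ n = γ * (s ^ d ^ n)⁻¹ * (s ^ d ^ n * x i ^ d ^ n) := by
            field_simp
        _ = γ * (s ^ d ^ n)⁻¹ * (s ^ d ^ m * x i ^ d ^ m) := by rw [h3]
        _ = _ := by field_simp

end hyperplane

end map

end Pool.Agent.TH377.Dyn
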