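import Pool.Agent.TH377.Dyn.Main
import Pool.Agent.TH377.Dyn.Henon

/-!
# Rational functions with a denominator divisible by `b`
-/

set_option autoImplicit false
set_option maxHeartbeats 400000

namespace Pool.Agent.TH377.Dyn

open Polynomial NumberField IsDedekindDomain

universe u v

section map

variable {L : Type u} [Field L]

/-- the rational map `F / (b G)` on `P¹(L)` -/
noncomputable def rat (F G : L[X]) (b : L) : Option L → Option L
  | none => none
  | some x => open Classical in if G.eval x = 0 then none else some (F.eval x / (b * G.eval x))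

lemma rat_none (F G : L[X]) (b : L) : rat F G b none = none := rfl

lemma rat_some (F G : L[X]) (b x : L) (h : G.eval x ≠ 0) :
    rat F G b (some x) = some (F.eval x / (b * G.eval x)) := by
  rw [rat, if_neg h]

lemma rat_zero (F G : L[X]) (b x : L) (h : G.eval x = 0) : rat F G b (some x) = none := by
  rw [rat, if_pos h]

variable {Γ : Type v} [LinearOrderedCommGroupWithZero Γ] (V : Valuation L Γ)

/-- the value of an integral polynomial at an integral element -/
lemma val_eval_le (F : L[X]) (hF : ∀ i, V (F.coeff i) ≤ 1) (x : L) (hx : V x ≤ 1) :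
    V (F.eval x) ≤ 1 := by
  rw [eval_eq_sum_range]
  refine Valuation.map_sum_le V fun i _ => ?_
  rw [map_mul, map_pow]
  exact mul_le_one' (hF i) (pow_le_one' hx i)

/-- the orbit of a point that is not a pole is infinite -/
theorem rat_escape (F : L[X]) (hF : ∀ i, V (F.coeff i) ≤ 1) (hl : V F.leadingCoeff = 1)
    (G : L[X]) (hG : ∀ i, V (G.coeff i) ≤ 1) (hlG : V G.leadingCoeff = 1)
    (hGF : G.natDegree < F.natDegree) (b : L) (hb : V b < 1) (hb0 : b ≠ 0) (x : L)
    (hx : 1 < V x ∨ 1 ≤ V (F.eval x)) (hGx : G.eval x ≠ 0) :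
    Function.Injective fun n => (rat F G b)^[n] (some x) := by
  classical
  have hVb : V b ≠ 0 := (Valuation.ne_zero_iff V).2 hb0
  have hb1 : 1 < (V b)⁻¹ := (one_lt_inv₀ (zero_lt_iff.2 hVb)).2 hb
  have hbig : ∀ y : L, 1 < V y → G.eval y ≠ 0 ∧ V y < V (F.eval y / (b * G.eval y)) := by
    intro y hy
    have hy0 : 0 < V y := zero_lt_one.trans hy
    have e1 := val_eval V F hF hl y hy
    have e2 := val_eval V G hG hlG y hy
    have e3 : G.eval y ≠ 0 := by
      intro h
      rw [h, map_zero] at e2
      exact (pow_pos hy0 _).ne e2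
    refine ⟨e3, ?_⟩
    rw [map_div₀, map_mul, e1, e2, div_eq_mul_inv, mul_inv, ← mul_assoc, mul_comm _ (V b)⁻¹,
      mul_assoc]
    have e4 : V y ≤ V y ^ F.natDegree * (V y ^ G.natDegree)⁻¹ := by
      rw [← div_eq_mul_inv, le_div_iff₀ (pow_pos hy0 _), ← pow_succ']
      exact pow_le_pow_right₀ hy.le hGF
    calc V y = 1 * V y := (one_mul _).symm
      _ < (V b)⁻¹ * V y := mul_lt_mul_of_pos_right hb1 hy0
      _ ≤ _ := mul_le_mul_right e4 _
  have hfirst : 1 < V (F.eval x / (b * G.eval x)) ∧ V x < V (F.eval x / (b * G.eval x)) := by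
    by_cases h1 : 1 < V x
    · exact ⟨h1.trans (hbig x h1).2, (hbig x h1).2⟩
    · rw [not_lt] at h1
      have h2 : 1 ≤ V (F.eval x) := by
        rcases hx with hx | hx
        · exact absurd hx (not_lt.2 h1)
        · exact hx
      have h3 : 1 < V (F.eval x / (b * G.eval x)) := by
        have h4 : V (G.eval x) ≤ 1 := val_eval_le V G hG x h1
        have h5 : V (G.eval x) ≠ 0 := (Valuation.ne_zero_iff V).2 hGx
        rw [map_div₀, map_mul, lt_div_iff₀ (zero_lt_iff.2 (mul_ne_zero hVb h5)), one_mul]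
        refine lt_of_lt_of_le ?_ h2
        calc V b * V (G.eval x) ≤ V b * 1 := mul_le_mul_right h4 _
          _ = V b := mul_one _
          _ < 1 := hb
      exact ⟨h3, h1.trans_lt h3⟩
  -- the orbit
  have horb : ∀ n, ∃ y : L, (rat F G b)^[n + 1] (some x) = some y ∧ 1 < V y := by
    intro n
    induction n with
    | zero =>
      refine ⟨_, rat_some F G b x hGx, hfirst.1⟩
    | succ n ih =>
      obtain ⟨y, hy, hy1⟩ := ih
      refine ⟨_, ?_, hy1.trans (hbig y hy1).2⟩
      rw [Function.iterate_succ_apply', hy, rat_some F G b y (hbig y hy1).1]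
  let g : Option L → Γ := fun P => P.elim 0 V
  have hmono : StrictMono fun n => g ((rat F G b)^[n] (some x)) := by
    refine strictMono_nat_of_lt_succ fun n => ?_
    cases n with
    | zero =>
      change V x < g (rat F G b (some x))
      rw [rat_some F G b x hGx]
      exact hfirst.2
    | succ n =>
      obtain ⟨y, hy, hy1⟩ := horb n
      rw [Function.iterate_succ_apply' _ (n + 1), hy, rat_some F G b y (hbig y hy1).1]
      exact (hbig y hy1).2
  intro m n hmn
  exact hmono.injective (congrArg g hmn)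

end map

variable {K : Type u} {L : Type v} [Field K] [NumberField K] [Field L] [NumberField L]
  [Algebra K L]

/-- there is a place with a residue degree not divisible by `d` -/
lemma exists_place (v : HeightOneSpectrum (𝓞 K)) (d : ℕ) (hL : ¬ d ∣ Module.finrank K L) :
    ∃ q : v.asIdeal.primesOver (𝓞 L), ¬ d ∣ q.1.inertiaDeg (𝓞 K) := by
  by_contra h
  rw [not_exists] at h
  apply hL
  rw [← sum_ef L v]
  exact Finset.dvd_sum fun q _ => Dvd.dvd.mul_left (not_not.1 (h q)) _

/-- the points that are not poles are not preperiodic -/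
theorem rat_injective (v : HeightOneSpectrum (𝓞 K)) (b : 𝓞 K) (hb : b ∈ v.asIdeal) (hb0 : b ≠ 0)
    (F : (𝓞 K)[X]) (hlc : F.leadingCoeff ∉ v.asIdeal)
    (hirr : Irreducible (F.map (Ideal.Quotient.mk v.asIdeal))) (G : (𝓞 K)[X])
    (hG : G.leadingCoeff ∉ v.asIdeal) (hGF : G.natDegree < F.natDegree)
    (hL : ¬ F.natDegree ∣ Module.finrank K L) (x : L)
    (hx : (G.map (algebraMap (𝓞 K) L)).eval x ≠ 0) :
    Function.Injective fun n => (rat (F.map (algebraMap (𝓞 K) L)) (G.map (algebraMap (𝓞 K) L))
      (algebraMap (𝓞 K) L b))^[n] (some x) := by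
  have hinj : Function.Injective (algebraMap (𝓞 K) L) :=
    FaithfulSMul.algebraMap_injective (𝓞 K) L
  obtain ⟨q, hq⟩ := exists_place v F.natDegree hL
  refine rat_escape ((ovr v q).valuation L) _ (coeff_le v q F) ?_ _ (coeff_le v q G) ?_ ?_ _
    (val_lt_one v q b hb) ?_ x ?_ hx
  · rw [leadingCoeff_map_of_injective hinj]
    exact val_eq_one v q _ hlc
  · rw [leadingCoeff_map_of_injective hinj]
    exact val_eq_one v q _ hG
  · rwa [natDegree_map_eq_of_injective hinj, natDegree_map_eq_of_injective hinj]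
  · rwa [Ne, map_eq_zero_iff _ hinj]
  · by_contra h
    rw [not_or, not_lt, not_le] at h
    exact hq (dvd_inertia v (ovr v q) F hlc hirr x h.1 h.2)

/-- the numerator has no roots in such extensions -/
theorem no_root (v : HeightOneSpectrum (𝓞 K)) (F : (𝓞 K)[X]) (hlc : F.leadingCoeff ∉ v.asIdeal)
    (hirr : Irreducible (F.map (Ideal.Quotient.mk v.asIdeal)))
    (hL : ¬ F.natDegree ∣ Module.finrank K L) (x : L) :
    (F.map (algebraMap (𝓞 K) L)).eval x ≠ 0 := by
  have hinj : Function.Injective (algebraMap (𝓞 K) L) :=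
    FaithfulSMul.algebraMap_injective (𝓞 K) L
  intro h
  obtain ⟨q, hq⟩ := exists_place v F.natDegree hL
  apply hq
  refine dvd_inertia v (ovr v q) F hlc hirr x ?_ ?_
  · by_contra h1
    rw [not_le] at h1
    have h2 := val_eval ((ovr v q).valuation L) _ (coeff_le v q F) (by
      rw [leadingCoeff_map_of_injective hinj]
      exact val_eq_one v q _ hlc) x h1
    rw [h, map_zero] at h2
    exact (pow_pos (zero_lt_one.trans h1) _).ne h2
  · rw [h, map_zero]
    exact zero_lt_one

/-- numerator and denominator are coprime -/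
theorem num_coprime (v : HeightOneSpectrum (𝓞 K)) (F : (𝓞 K)[X])
    (hlc : F.leadingCoeff ∉ v.asIdeal)
    (hirr : Irreducible (F.map (Ideal.Quotient.mk v.asIdeal))) (G : (𝓞 K)[X]) (hG0 : G ≠ 0)
    (hGF : G.natDegree < F.natDegree) :
    IsCoprime (F.map (algebraMap (𝓞 K) K)) (G.map (algebraMap (𝓞 K) K)) := by
  have hinj : Function.Injective (algebraMap (𝓞 K) K) :=
    FaithfulSMul.algebraMap_injective (𝓞 K) K
  have hG0' : G.map (algebraMap (𝓞 K) K) ≠ 0 := (Polynomial.map_ne_zero_iff hinj).2 hG0
  refine isCoprime_of_irreducible_dvd (fun h => hG0' h.2) fun p hp h1 h2 => ?_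
  have hfact : Fact (Irreducible p) := ⟨hp⟩
  have hfin : FiniteDimensional K (AdjoinRoot p) :=
    Module.Finite.of_basis (AdjoinRoot.powerBasis hp.ne_zero).basis
  have hNF : NumberField (AdjoinRoot p) := NumberField.of_module_finite K _
  have hdeg : Module.finrank K (AdjoinRoot p) = p.natDegree := by
    rw [(AdjoinRoot.powerBasis hp.ne_zero).finrank, AdjoinRoot.powerBasis_dim]
  have hle : p.natDegree < F.natDegree := by
    refine lt_of_le_of_lt (natDegree_le_of_dvd h2 hG0') ?_
    rwa [natDegree_map_eq_of_injective hinj]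
  have hpos : 0 < p.natDegree := hp.natDegree_pos
  refine no_root (L := AdjoinRoot p) v F hlc hirr (fun h => ?_) (AdjoinRoot.root p) ?_
  · rw [hdeg] at h
    exact absurd (Nat.le_of_dvd hpos h) (not_le.2 hle)
  · have h3 := aeval_eq_zero_of_dvd_aeval_eq_zero h1 (AdjoinRoot.aeval_eq p ▸
      (AdjoinRoot.mk_self (f := p)) : aeval (AdjoinRoot.root p) p = 0)
    rw [eval_map_algebraMap]
    rwa [aeval_map_algebraMap] at h3

end Pool.Agent.TH377.Dyn
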